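import Pool.Agent.D0H94.T12.Ord
import Pool.Agent.D0H94.T12.Trans

/-!
Two self-avoiding walks on the Archimedean lattice (3.12²) (triangles and regular 12-gons): the
non-intersection probability is at least `exp (-K (log n)²)` for all `n`, and at most a negative
power of `n` along infinitely many `n`.
-/

set_option autoImplicit false

namespace Pool.Agent.Results.MP_8c6f77_pr.ArchimedeanBounds

open Filter Topology

/-- the number `e^{iπ/3}` -/
noncomputable def w : ℂ := ⟨1 / 2, √3 / 2⟩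

/-- the vertices of the honeycomb lattice with edges of length `1`: the triangular lattice
`{a + b w}` without the centres `a - b ≡ 2 (mod 3)` of the hexagons -/
def honeycombV : Set ℂ := {z | ∃ a b : ℤ, (a - b) % 3 ≠ 2 ∧ z = a + b * w}

/-- the vertices of the lattice (3.12²): on every edge of the honeycomb lattice, the two points at
distance `2 - √3` from an end point of the edge. The three points around a vertex of the honeycomb
lattice form a triangle with sides `√3 (2 - √3) = 2 √3 - 3`, and the two points on an edge have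
distance `1 - 2 (2 - √3) = 2 √3 - 3`. -/
def dodecagonV : Set ℂ :=
  {z | ∃ p ∈ honeycombV, ∃ q ∈ honeycombV, ‖q - p‖ = 1 ∧ z = p + (2 - √3 : ℝ) * (q - p)}

/-- `ω` is an `n`-step self-avoiding walk on the lattice (3.12²) from the vertex `2 - √3`; two
vertices are adjacent when their distance is `2 √3 - 3` -/
def IsSAW (n : ℕ) (ω : Fin (n + 1) → ℂ) : Prop :=
  ω 0 = ((2 - √3 : ℝ) : ℂ) ∧ (∀ i, ω i ∈ dodecagonV) ∧
    (∀ i : Fin n, ‖ω i.succ - ω i.castSucc‖ = 2 * √3 - 3) ∧ Function.Injective ω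

/-- the number of `n`-step self-avoiding walks -/
noncomputable def a (n : ℕ) : ℕ := {ω | IsSAW n ω}.ncard

/-- the connective constant -/
noncomputable def mu : ℝ := ⨅ n : {n : ℕ // 1 ≤ n}, ((a n.1 : ℝ) ^ ((1 : ℝ) / (n.1 : ℝ)))

/-- `P_n[w{1,…,n} ∩ w'{0,…,n} = ∅]` for two independent uniform `n`-step self-avoiding walks -/
noncomputable def P (n : ℕ) : ℝ :=
  ({p : (Fin (n + 1) → ℂ) × (Fin (n + 1) → ℂ) | IsSAW n p.1 ∧ IsSAW n p.2 ∧
    ∀ i j, i ≠ 0 → p.1 i ≠ p.2 j}.ncard : ℝ) / (a n : ℝ) ^ 2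

open Pool.Agent.D0H94.T12 in
lemma a_eq (n : ℕ) : a n = aF n := cardF n

open Pool.Agent.D0H94.T12 in
lemma P_eq : P = PP aF := by
  funext n
  unfold P PP
  rw [a_eq]
  congr 2
  exact pairsF n

open Pool.Agent.D0H94.T12 in
lemma mu_eq : mu = mF := by
  unfold mu
  simp only [a_eq]
  exact mF_eq

/-- **Theorem.** On the Archimedean lattice (3.12²), let `P_n = P_n[w{1,…,n} ∩ w'{0,…,n} = ∅]`,
`a_n` the number of `n`-step self-avoiding walks and `μ` the connective constant.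
(1) There is `K` with `exp (-K (log n)²) ≤ P_n ≤ 1` and `μ^n ≤ a_n ≤ μ^n exp (K (log n)²)` for all
`n ≥ 2`.
(2) With a constant `C`, `a_n ≥ e^(-C) μ^n n^(1/75)` and
`∑_j 2^{-(j+1)} log (1/P_{2^j n}) ≥ (log n)/75 - C` for all `n ≥ 1`; for every `δ < 1/75` and all
large `n` there is `j` with `P_{2^j n} ≤ (2^j n)^(-δ)`; an exponent of `P_n`, if it exists, is at
most `-1/75`. -/
theorem result :
    (∃ K : ℝ, ∀ n : ℕ, 2 ≤ n →
      Real.exp (-(K * Real.log n ^ 2)) ≤ P n ∧ P n ≤ 1 ∧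
      mu ^ n ≤ (a n : ℝ) ∧ (a n : ℝ) ≤ mu ^ n * Real.exp (K * Real.log n ^ 2)) ∧
    (∃ C : ℝ, ∀ n : ℕ, 1 ≤ n →
      Real.exp (-C) * (mu ^ n * (n : ℝ) ^ ((1 : ℝ) / 75)) ≤ (a n : ℝ) ∧
      ∃ S : ℝ, HasSum (fun j : ℕ => (1 / 2 : ℝ) ^ (j + 1) * Real.log (1 / P (2 ^ j * n))) S ∧
        1 / 75 * Real.log n - C ≤ S) ∧
    (∀ δ : ℝ, δ < 1 / 75 → ∃ n₀ : ℕ, ∀ n : ℕ, n₀ ≤ n → ∃ j : ℕ,
      P (2 ^ j * n) ≤ ((2 ^ j * n : ℕ) : ℝ) ^ (-δ)) ∧
    (∀ α : ℝ, Tendsto (fun n : ℕ => Real.log (P n) / Real.log n) atTop (𝓝 α) →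
      α ≤ -(1 / 75)) := by
  obtain ⟨K, hK, hq⟩ := Pool.Agent.D0H94.T12.quasiF
  obtain ⟨C, hC, hl⟩ := Pool.Agent.D0H94.T12.lowF
  rw [P_eq, mu_eq]
  simp only [a_eq]
  refine ⟨⟨K, ?_⟩, ⟨C, ?_⟩, ?_, ?_⟩
  · intro n hn
    obtain ⟨h1, h2, h3, h4⟩ := hq n hn
    exact ⟨h3, h4, h1, h2⟩
  · intro n hn
    have hn0 : (0 : ℝ) < n := by exact_mod_cast hn
    refine ⟨?_, _, Pool.Agent.D0H94.T12.dbF.hasSum n hn, hl n hn⟩
    have h1 := hl n hn
    have hm := pow_pos Pool.Agent.D0H94.T12.mF_pos n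
    have ha := Pool.Agent.D0H94.T12.aF_pos n hn
    rw [Real.le_log_iff_exp_le (div_pos ha hm), le_div_iff₀ hm] at h1
    refine le_trans (le_of_eq ?_) h1
    rw [Real.rpow_def_of_pos hn0, sub_eq_add_neg, Real.exp_add, mul_comm (Real.log (n : ℝ))]
    ring
  · exact Pool.Agent.D0H94.T12.dbF.small hl
  · exact Pool.Agent.D0H94.T12.dbF.expo_le hl

end Pool.Agent.Results.MP_8c6f77_pr.ArchimedeanBounds
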