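import Pool.Agent.D0H94.T12.Ord
import Pool.Agent.D0H94.T12.Trans

/-!
Two self-avoiding walks on the Archimedean lattice (3.12²) (triangles and regular 12-gons): the
non-intersection probability has an exponent if and only if it has one on the honeycomb lattice,
and the two exponents are equal.
-/

set_option autoImplicit false

namespace Pool.Agent.Results.MP_8c6f77_pr.ArchimedeanLattice

open Filter Topology

/-- a lattice in the plane: its set of vertices, the length of its edges (two vertices are adjacent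
when their distance is `d`), and the vertex `o` where the walks start -/
structure Lattice where
  V : Set ℂ
  d : ℝ
  o : ℂ

/-- the number `e^{iπ/3}` -/
noncomputable def w : ℂ := ⟨1 / 2, √3 / 2⟩

/-- the vertices of the honeycomb lattice with edges of length `1`: the triangular lattice
`{a + b w}` without the centres `a - b ≡ 2 (mod 3)` of the hexagons -/
def honeycombV : Set ℂ := {z | ∃ a b : ℤ, (a - b) % 3 ≠ 2 ∧ z = a + b * w}

/-- the honeycomb lattice -/
noncomputable def hex : Lattice := ⟨honeycombV, 1, 0⟩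

/-- the vertices of the lattice (3.12²): on every edge of the honeycomb lattice, the two points at
distance `2 - √3` from an end point of the edge. The three points around a vertex of the honeycomb
lattice form a triangle with sides `√3 (2 - √3) = 2 √3 - 3`, and the two points on an edge have
distance `1 - 2 (2 - √3) = 2 √3 - 3`. -/
def dodecagonV : Set ℂ :=
  {z | ∃ p ∈ honeycombV, ∃ q ∈ honeycombV, ‖q - p‖ = 1 ∧ z = p + (2 - √3 : ℝ) * (q - p)}

/-- the Archimedean lattice (3.12²) -/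
noncomputable def dod : Lattice := ⟨dodecagonV, 2 * √3 - 3, ((2 - √3 : ℝ) : ℂ)⟩

/-- `ω` is an `n`-step self-avoiding walk on `L` from the starting vertex -/
def IsSAW (L : Lattice) (n : ℕ) (ω : Fin (n + 1) → ℂ) : Prop :=
  ω 0 = L.o ∧ (∀ i, ω i ∈ L.V) ∧ (∀ i : Fin n, ‖ω i.succ - ω i.castSucc‖ = L.d) ∧
    Function.Injective ω

/-- the number of `n`-step self-avoiding walks -/
noncomputable def a (L : Lattice) (n : ℕ) : ℕ := {ω | IsSAW L n ω}.ncard

/-- the connective constant -/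
noncomputable def mu (L : Lattice) : ℝ :=
  ⨅ n : {n : ℕ // 1 ≤ n}, ((a L n.1 : ℝ) ^ ((1 : ℝ) / (n.1 : ℝ)))

/-- `P_n[w{1,…,n} ∩ w'{0,…,n} = ∅]` for two independent uniform `n`-step self-avoiding walks -/
noncomputable def P (L : Lattice) (n : ℕ) : ℝ :=
  ({p : (Fin (n + 1) → ℂ) × (Fin (n + 1) → ℂ) | IsSAW L n p.1 ∧ IsSAW L n p.2 ∧
    ∀ i j, i ≠ 0 → p.1 i ≠ p.2 j}.ncard : ℝ) / (a L n : ℝ) ^ 2

/-- `f n = n ^ (α + o(1))` -/
def HasExponent (f : ℕ → ℝ) (α : ℝ) : Prop :=
  Tendsto (fun n : ℕ => Real.log (f n) / Real.log n) atTop (𝓝 α)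

/-- `f n ≤ n ^ (β + o(1))` -/
def AtMost (f : ℕ → ℝ) (β : ℝ) : Prop :=
  ∀ ε : ℝ, 0 < ε → ∀ᶠ n : ℕ in atTop, Real.log (f n) ≤ (β + ε) * Real.log n

/-- `f n ≍ n ^ α`: for positive `c, C` and all large `n`, `c n ^ α ≤ f n ≤ C n ^ α` -/
def OfOrder (f : ℕ → ℝ) (α : ℝ) : Prop :=
  ∃ c C : ℝ, 0 < c ∧ ∀ᶠ n : ℕ in atTop, c * (n : ℝ) ^ α ≤ f n ∧ f n ≤ C * (n : ℝ) ^ α

/-- the normalised number of walks `a_n / μ^n` -/
noncomputable def N (L : Lattice) (n : ℕ) : ℝ := (a L n : ℝ) / mu L ^ n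

open Pool.Agent.D0H94.T12 in
lemma a_hex (n : ℕ) : a hex n = aH n := cardH n

open Pool.Agent.D0H94.T12 in
lemma a_dod (n : ℕ) : a dod n = aF n := cardF n

open Pool.Agent.D0H94.T12 in
lemma P_hex : P hex = PP aH := by
  funext n
  unfold P PP
  rw [a_hex]
  congr 2
  exact pairsH n

open Pool.Agent.D0H94.T12 in
lemma P_dod : P dod = PP aF := by
  funext n
  unfold P PP
  rw [a_dod]
  congr 2
  exact pairsF n

open Pool.Agent.D0H94.T12 in
lemma mu_hex : mu hex = mH := by
  unfold mu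
  simp only [a_hex]
  exact mH_eq

open Pool.Agent.D0H94.T12 in
lemma mu_dod : mu dod = mF := by
  unfold mu
  simp only [a_dod]
  exact mF_eq

open Pool.Agent.D0H94.T12 in
lemma N_hex : N hex = fun n => (aH n : ℝ) / mH ^ n := by
  funext n
  unfold N
  rw [a_hex, mu_hex]

open Pool.Agent.D0H94.T12 in
lemma N_dod : N dod = fun n => (aF n : ℝ) / mF ^ n := by
  funext n
  unfold N
  rw [a_dod, mu_dod]

/-- **Theorem.** Let `P_n = P_n[w{1,…,n} ∩ w'{0,…,n} = ∅]`, `a_n` the number of walks, `μ` the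
connective constant, on the lattice `dod` = (3.12²) and on the honeycomb lattice `hex`.
(0) The motions of the plane that preserve `dod` act transitively on its vertices;
`1/μ_dod² + 1/μ_dod³ = 1/μ_hex` and `μ_hex = √(2 + √2)`.
(1) For every real `α`: `P_n = n^(-α+o(1))` on `dod` if and only if `P_n = n^(-α+o(1))` on the
honeycomb lattice, if and only if `a_n = μ^n n^(α+o(1))` on `dod`, if and only if this holds on the
honeycomb lattice. For `α = 11/32` this says that Q1 for `dod` and Q1 for the honeycomb lattice are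
equivalent.
(2) For every real `β`: `a_n ≤ μ^n n^(β+o(1))` on `dod` if and only if this holds on the honeycomb
lattice.
(3) If `a_n` is of the order `μ^n n^α` on the honeycomb lattice, then on `dod` too, and `P_n` is of
the order `n^(-α)` on `dod`. -/
theorem result :
    ((∀ z ∈ dod.V, ∀ z' ∈ dod.V, ∃ c b : ℂ, ‖c‖ = 1 ∧
        (∀ y : ℂ, c * y + b ∈ dod.V ↔ y ∈ dod.V) ∧ c * z + b = z') ∧
      1 / mu dod ^ 2 + 1 / mu dod ^ 3 = 1 / mu hex ∧ mu hex = √(2 + √2)) ∧
    (∀ α : ℝ, (HasExponent (P dod) (-α) ↔ HasExponent (P hex) (-α)) ∧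
      (HasExponent (P dod) (-α) ↔ HasExponent (N dod) α) ∧
      (HasExponent (P dod) (-α) ↔ HasExponent (N hex) α)) ∧
    (∀ β : ℝ, AtMost (N dod) β ↔ AtMost (N hex) β) ∧
    (∀ α : ℝ, OfOrder (N hex) α → OfOrder (N dod) α ∧ OfOrder (P dod) (-α)) := by
  rw [P_dod, P_hex, N_dod, N_hex, mu_dod, mu_hex]
  refine ⟨⟨?_, Pool.Agent.D0H94.T12.cubic, rfl⟩, ?_, ?_, ?_⟩
  · intro z hz z' hz'
    exact Pool.Agent.D0H94.T12.dod_trans hz hz'
  · intro α
    have h1 := Pool.Agent.D0H94.T12.expoF α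
    have h2 := Pool.Agent.D0H94.T12.expoH α
    have h3 := Pool.Agent.D0H94.T12.expoFH α
    exact ⟨h1.trans (h3.trans h2.symm), h1, h1.trans h3⟩
  · exact Pool.Agent.D0H94.T12.upFH
  · intro α h
    have h1 := Pool.Agent.D0H94.T12.ordF h
    exact ⟨h1, Pool.Agent.D0H94.T12.ordP Pool.Agent.D0H94.T12.mF_pos h1⟩

end Pool.Agent.Results.MP_8c6f77_pr.ArchimedeanLattice
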