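import Pool.Agent.D0H94.T13.Pr4
import Pool.Agent.D0H21.FM.Mass
import Pool.Agent.D0H81.FM.Sharp
import Pool.Agent.D0H52.FM.Ren

/-!
The probability that two self-avoiding walks on the Archimedean lattice (3.12²) (triangles and
regular 12-gons) do not intersect, as an exact average of the probabilities of non-intersection of
walks on the honeycomb lattice over independent random numbers of steps.
-/

set_option autoImplicit false

namespace Pool.Agent.Results.MP_8c6f77_pr.ArchimedeanNonIntersection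

open Filter Topology

/-- the number `e^{iπ/3}` -/
noncomputable def w : ℂ := ⟨1 / 2, √3 / 2⟩

/-- the vertices of the honeycomb lattice with edges of length `1`: the triangular lattice
`{a + b w}` without the centres `a - b ≡ 2 (mod 3)` of the hexagons -/
def honeycombV : Set ℂ := {z | ∃ a b : ℤ, (a - b) % 3 ≠ 2 ∧ z = a + b * w}

/-- the vertices of the lattice (3.12²): on every edge of the honeycomb lattice, the two points at
distance `2 - √3` from an end point of the edge. The three points around a vertex of the honeycomb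
lattice form a triangle with sides `√3 (2 - √3) = 2 √3 - 3`, and the two points on an edge have
distance `1 - 2 (2 - √3) = 2 √3 - 3`. -/
def dodecagonV : Set ℂ :=
  {z | ∃ p ∈ honeycombV, ∃ q ∈ honeycombV, ‖q - p‖ = 1 ∧ z = p + (2 - √3 : ℝ) * (q - p)}

/-- `ω` is an `n`-step self-avoiding walk on the lattice (3.12²) from the vertex `2 - √3`; two
vertices are adjacent when their distance is `2 √3 - 3` -/
def IsSAW (n : ℕ) (ω : Fin (n + 1) → ℂ) : Prop :=
  ω 0 = ((2 - √3 : ℝ) : ℂ) ∧ (∀ i, ω i ∈ dodecagonV) ∧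
    (∀ i : Fin n, ‖ω i.succ - ω i.castSucc‖ = 2 * √3 - 3) ∧ Function.Injective ω

/-- `γ` is an `m`-step self-avoiding walk on the honeycomb lattice from `0` -/
def IsHexSAW (m : ℕ) (γ : Fin (m + 1) → ℂ) : Prop :=
  γ 0 = 0 ∧ (∀ i, γ i ∈ honeycombV) ∧ (∀ i : Fin m, ‖γ i.succ - γ i.castSucc‖ = 1) ∧
    Function.Injective γ

/-- the centre of the triangle of a vertex `z` of (3.12²): the vertex of the honeycomb lattice at
distance `2 - √3` from `z` -/
noncomputable def centre (z : ℂ) : ℂ :=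
  Classical.epsilon fun c => c ∈ honeycombV ∧ ‖z - c‖ = 2 - √3

/-- the first and the last step are sides of triangles (the steps of the numbers `0` and `n - 1`) -/
def Ends {n : ℕ} (ω : Fin (n + 1) → ℂ) : Prop :=
  ∀ i : Fin n, (i.val = 0 ∨ i.val + 1 = n) → centre (ω i.castSucc) = centre (ω i.succ)

/-- `w{1,…,m} ∩ w'{0,…,n} = ∅` -/
def Avoid {m n : ℕ} (ω : Fin (m + 1) → ℂ) (ω' : Fin (n + 1) → ℂ) : Prop :=
  ∀ i j, i ≠ 0 → ω i ≠ ω' j

/-- the number of `n`-step self-avoiding walks on (3.12²) -/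
noncomputable def a (n : ℕ) : ℕ := {ω | IsSAW n ω}.ncard

/-- the number of those with `Ends` -/
noncomputable def e (n : ℕ) : ℕ := {ω | IsSAW n ω ∧ Ends ω}.ncard

/-- the number of pairs of walks with `Ends` which avoid each other -/
noncomputable def pairs (n : ℕ) : ℕ :=
  {p : (Fin (n + 1) → ℂ) × (Fin (n + 1) → ℂ) | (IsSAW n p.1 ∧ Ends p.1) ∧
    (IsSAW n p.2 ∧ Ends p.2) ∧ Avoid p.1 p.2}.ncard

/-- `P_n[w{1,…,n} ∩ w'{0,…,n} = ∅]` for two independent uniform `n`-step walks on (3.12²) -/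
noncomputable def P (n : ℕ) : ℝ :=
  ({p : (Fin (n + 1) → ℂ) × (Fin (n + 1) → ℂ) | IsSAW n p.1 ∧ IsSAW n p.2 ∧
    Avoid p.1 p.2}.ncard : ℝ) / (a n : ℝ) ^ 2

/-- the conditional probability given `Ends` for both walks -/
noncomputable def PE (n : ℕ) : ℝ := (pairs n : ℝ) / (e n : ℝ) ^ 2

/-- the number of `m`-step self-avoiding walks on the honeycomb lattice -/
noncomputable def h (m : ℕ) : ℕ := {γ | IsHexSAW m γ}.ncard

/-- the probability that independent uniform walks of `m` and `m'` steps on the honeycomb lattice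
avoid each other -/
noncomputable def Q (m m' : ℕ) : ℝ :=
  ({p : (Fin (m + 1) → ℂ) × (Fin (m' + 1) → ℂ) | IsHexSAW m p.1 ∧ IsHexSAW m' p.2 ∧
    Avoid p.1 p.2}.ncard : ℝ) / ((h m : ℝ) * h m')

/-- the connective constant of (3.12²) -/
noncomputable def mu : ℝ := ⨅ n : {n : ℕ // 1 ≤ n}, ((a n.1 : ℝ) ^ ((1 : ℝ) / (n.1 : ℝ)))

/-- the density of triangles -/
noncomputable def c : ℝ := (1 + mu) / (3 + 2 * mu)

/-- the number of ways to write `N` as an ordered sum of `m` numbers `2` and `3` -/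
def ways (m N : ℕ) : ℕ := if 2 * m ≤ N then m.choose (N - 2 * m) else 0

/-- the weights: `weight n m = h_m ways m (n - 1) / ∑_{i ≤ n} h_i ways (i + 1) (n + 1)` -/
noncomputable def weight (n m : ℕ) : ℝ :=
  h m * ways m (n - 1) / ∑ i ∈ Finset.range (n + 1), (h i : ℝ) * ways (i + 1) (n + 1)

/-- `|m - c n| ≤ L √n log n` -/
def Near (L : ℝ) (n m : ℕ) : Prop := |(m : ℝ) - c * n| ≤ L * (√n * Real.log n)

/-- the numbers `m ≤ n` with `|m - c n| ≥ L √n log n` -/
noncomputable def farSteps (L : ℝ) (n : ℕ) : Finset ℕ :=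
  (Finset.range (n + 1)).filter fun m : ℕ => L * (√n * Real.log n) ≤ |(m : ℝ) - c * n|

open Pool.Agent.D0H94.T12 Pool.Agent.D0H94.T13 in
lemma a_eq (n : ℕ) : a n = aF n := cardF n

open Pool.Agent.D0H94.T12 Pool.Agent.D0H94.T13 in
lemma h_eq (m : ℕ) : (h m : ℝ) = hh m := rfl

open Pool.Agent.D0H94.T12 Pool.Agent.D0H94.T13 in
lemma mu_eq : mu = mF := by
  unfold mu
  simp only [a_eq]
  exact mF_eq

open Pool.Agent.D0H94.T12 Pool.Agent.D0H94.T13 in
lemma c_eq : c = cc := by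
  unfold c cc
  rw [mu_eq]

open Pool.Agent.D0H94.T12 Pool.Agent.D0H94.T13 in
lemma PE_eq (n : ℕ) : Results.MP_8c6f77_pr.ArchimedeanNonIntersection.PE n =
    ((Pool.Agent.D0H94.T13.PE n).ncard : ℝ) / ((wE n).ncard : ℝ) ^ 2 := rfl

open Pool.Agent.D0H94.T12 Pool.Agent.D0H94.T13 in
lemma P_eq (n : ℕ) : P n = ((PA n).ncard : ℝ) / ((wF n).ncard : ℝ) ^ 2 := rfl

open Pool.Agent.D0H94.T12 Pool.Agent.D0H94.T13 in
lemma Q_eq (m m' : ℕ) : Q m m' = Qh m m' := by
  have h1 := pairs2H m m'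
  have h2 : {p : (Fin (m + 1) → ℂ) × (Fin (m' + 1) → ℂ) | IsHexSAW m p.1 ∧ IsHexSAW m' p.2 ∧
    Avoid p.1 p.2}.ncard = aH (m + m') := h1
  unfold Q Qh
  rw [h2, h_eq, h_eq, hh_eq (m + m')]

open Pool.Agent.D0H94.T12 Pool.Agent.D0H94.T13 in
lemma weight_eq (n m : ℕ) : weight n m = vv n m := rfl

/-- **Theorem.** Let `Ends` be the event that the first and the last step of a walk on (3.12²) are
sides of triangles, `h_m` the number of `m`-step walks on the honeycomb lattice, `Q(m, m')` the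
probability that two independent walks of `m` and `m'` steps on the honeycomb lattice avoid each
other, `μ` the connective constant of (3.12²) and `c = (1 + μ) / (3 + 2 μ)`.
(1) For `n ≥ 3`: the number of `n`-step walks on (3.12²) with `Ends` is
`4/3 ∑_m (m+1 choose n-2m-1) h_m`, and the number of the pairs of such walks which avoid each other is
`4/3 ∑_{m, m'} (m choose n-2m-1) (m' choose n-2m'-1) h_{m+m'}`.
(2) For `n ≥ 3` the probability of non-intersection given `Ends` is exactly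
`3/4 ∑_{m, m'} weight n m weight n m' Q(m, m')`, and `Q(m, m') = h_{m+m'} / (h_m h_{m'})`.
(3) `∑_m weight n m → μ / (1 + μ)`, and for each `A > 0` there is `L` such that the sum of
`weight n m` over `|m - c n| ≥ L √n log n` is at most `exp (-A (log n)²)` for `n ≥ 3`.
(4) `P_n / C ≤ PE_n ≤ C P_n` for all `n ≥ 3`, where `P_n` is the probability of non-intersection for
all walks on (3.12²).
(5) For each `A > 0` there are `C` and `L` such that for all `n ≥ 3` and `δ ≥ 0`: if `Q(m, m') ≤ δ` for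
all `m, m'` with `|m - c n|, |m' - c n| ≤ L √n log n`, then `P_n ≤ C δ + exp (-A (log n)²)`, and if
`Q(m, m') ≥ δ` for all these `m, m'`, then `P_n ≥ δ / C`.
(6) If `h_m / (√(2+√2)^m m^g) → B > 0`, then
`PE_n (c n)^g → 3/4 (μ / (1 + μ))² 2^g / B`, and the number of `n`-step walks on (3.12²) with `Ends`
divided by `μ^n (c n)^g` tends to `4/3 B c μ / √(2+√2)`. -/
theorem result :
    (∀ n : ℕ, 3 ≤ n →
      3 * e n = 4 * ∑ m ∈ Finset.range (n + 1), ways (m + 1) (n + 1) * h m ∧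
      3 * pairs n = 4 * ∑ m ∈ Finset.range (n + 1), ∑ m' ∈ Finset.range (n + 1),
        ways m (n - 1) * ways m' (n - 1) * h (m + m')) ∧
    (∀ n : ℕ, 3 ≤ n → PE n = 3 / 4 * ∑ m ∈ Finset.range (n + 1), ∑ m' ∈ Finset.range (n + 1),
      weight n m * weight n m' * Q m m') ∧
    (∀ m m' : ℕ, Q m m' = h (m + m') / ((h m : ℝ) * h m')) ∧
    Tendsto (fun n : ℕ => ∑ m ∈ Finset.range (n + 1), weight n m) atTop (𝓝 (mu / (1 + mu))) ∧
    (∀ A : ℝ, 0 < A → ∃ L : ℝ, 0 < L ∧ ∀ n : ℕ, 3 ≤ n →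
      ∑ m ∈ farSteps L n, weight n m ≤ Real.exp (-(A * Real.log n ^ 2))) ∧
    (∃ C : ℝ, 0 < C ∧ ∀ n : ℕ, 3 ≤ n → P n / C ≤ PE n ∧ PE n ≤ C * P n) ∧
    (∀ A : ℝ, 0 < A → ∃ C L : ℝ, 0 < C ∧ 0 < L ∧ ∀ n : ℕ, 3 ≤ n → ∀ δ : ℝ, 0 ≤ δ →
      ((∀ m m' : ℕ, Near L n m → Near L n m' → Q m m' ≤ δ) →
        P n ≤ C * δ + Real.exp (-(A * Real.log n ^ 2))) ∧
      ((∀ m m' : ℕ, Near L n m → Near L n m' → δ ≤ Q m m') → δ / C ≤ P n)) ∧
    ∀ g B : ℝ, 0 < B →
      Tendsto (fun m : ℕ => (h m : ℝ) / (√(2 + √2) ^ m * (m : ℝ) ^ g)) atTop (𝓝 B) →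
      Tendsto (fun n : ℕ => PE n * (c * n) ^ g) atTop
        (𝓝 (3 / 4 * ((mu / (1 + mu)) ^ 2 * (2 ^ g / B)))) ∧
      Tendsto (fun n : ℕ => (e n : ℝ) / (mu ^ n * (c * n) ^ g)) atTop
        (𝓝 (4 / 3 * (B * (c * mu / √(2 + √2))))) := by
  refine ⟨?_, ?_, ?_, ?_, ?_, ?_, ?_, ?_⟩
  · intro n hn
    constructor
    · have h1 := Pool.Agent.D0H94.T13.card_wE hn
      have h2 : (e n : ℝ) = 4 / 3 * Pool.Agent.D0H94.T13.ZZ Pool.Agent.D0H94.T13.hh n := h1
      have h3 : (3 : ℝ) * e n = 4 * ∑ m ∈ Finset.range (n + 1),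
          (ways (m + 1) (n + 1) : ℝ) * (h m : ℝ) := by
        rw [h2]
        unfold Pool.Agent.D0H94.T13.ZZ
        have h4 : ∑ m ∈ Finset.range (n + 1), (ways (m + 1) (n + 1) : ℝ) * (h m : ℝ) =
            ∑ m ∈ Finset.range (n + 1), Pool.Agent.D0H94.T13.hh m *
              (Pool.Agent.D0H94.T13.kc (m + 1) (n + 1) : ℝ) :=
          Finset.sum_congr rfl fun m _ => mul_comm _ _
        rw [h4]
        ring
      exact_mod_cast h3
    · have h1 := Pool.Agent.D0H94.T13.PE_count hn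
      have h2 : ∀ m, h m = Pool.Agent.D0H94.T12.aH m := fun m => Pool.Agent.D0H94.T12.cardH m
      simp only [h2]
      exact h1
  · intro n hn
    rw [PE_eq, Pool.Agent.D0H94.T13.prob_DD hn, Pool.Agent.D0H94.T13.DD_mix]
    simp only [Q_eq]
    rfl
  · intro m m'
    rw [Q_eq]
    rfl
  · rw [mu_eq]
    exact Pool.Agent.D0H94.T13.vv_mass Pool.Agent.D0H21.FM.t_MASS
  · intro A hA
    obtain ⟨L, hL, h1⟩ := Pool.Agent.D0H94.T13.vv_conc A hA
    refine ⟨L, hL, fun n hn => ?_⟩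
    unfold farSteps
    rw [c_eq]
    exact h1 n hn
  · obtain ⟨C, hC, h1⟩ := Pool.Agent.D0H94.T13.prob_cmp
    refine ⟨C, hC, fun n hn => ?_⟩
    obtain ⟨k1, k2⟩ := h1 n hn
    rw [PE_eq, P_eq]
    refine ⟨?_, k1⟩
    rw [div_le_iff₀ hC, mul_comm]
    exact k2
  · intro A hA
    obtain ⟨C, L, hC, hL, h1⟩ :=
      Pool.Agent.D0H94.T13.window Pool.Agent.D0H21.FM.t_MASS A hA
    refine ⟨C, L, hC, hL, fun n hn δ hδ => ?_⟩
    obtain ⟨k1, k2⟩ := h1 n hn δ hδ
    rw [P_eq]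
    constructor
    · intro h2
      refine k1 fun m m' hm hm' => ?_
      rw [← Q_eq]
      refine h2 m m' ?_ ?_
      · unfold Near
        rw [c_eq]
        exact hm
      · unfold Near
        rw [c_eq]
        exact hm'
    · intro h2
      refine k2 fun m m' hm hm' => ?_
      rw [← Q_eq]
      refine h2 m m' ?_ ?_
      · unfold Near
        rw [c_eq]
        exact hm
      · unfold Near
        rw [c_eq]
        exact hm'
  · intro g B hB h1
    rw [mu_eq, c_eq]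
    exact ⟨Pool.Agent.D0H94.T13.sharp_prob Pool.Agent.D0H81.FM.t_SHARP hB h1,
      Pool.Agent.D0H94.T13.sharp_count Pool.Agent.D0H52.FM.t_REN hB h1⟩

end Pool.Agent.Results.MP_8c6f77_pr.ArchimedeanNonIntersection
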