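import Pool.Agent.D0H94.T13.Gf

/-!
Self-avoiding walks on the Archimedean lattice (3.12²) (triangles and regular 12-gons): the numbers
`a_n` of walks and the non-intersection probabilities `P_n` at consecutive lengths, the generating
function, exponents along sparse sequences of lengths, and power laws along windows.
-/

set_option autoImplicit false

namespace Pool.Agent.Results.MP_8c6f77_pr.ArchimedeanRegularity

open Filter Topology

/-- the number `e^{iπ/3}` -/
noncomputable def w : ℂ := ⟨1 / 2, √3 / 2⟩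

/-- the vertices of the honeycomb lattice with edges of length `1`: the triangular lattice
`{a + b w}` without the centres `a - b ≡ 2 (mod 3)` of the hexagons -/
def honeycombV : Set ℂ := {z | ∃ a b : ℤ, (a - b) % 3 ≠ 2 ∧ z = a + b * w}

/-- the vertices of the lattice (3.12²): on every edge of the honeycomb lattice, the two points at
distance `2 - √3` from an end point of the edge. The three points around a vertex of the honeycomb
lattice form a triangle with sides `√3 (2 - √3) = 2 √3 - 3`, and the two points on an edge have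
distance `1 - 2 (2 - √3) = 2 √3 - 3`. -/
def dodecagonV : Set ℂ :=
  {z | ∃ p ∈ honeycombV, ∃ q ∈ honeycombV, ‖q - p‖ = 1 ∧ z = p + (2 - √3 : ℝ) * (q - p)}

/-- `ω` is an `n`-step self-avoiding walk on the lattice (3.12²) from the vertex `2 - √3`; two
vertices are adjacent when their distance is `2 √3 - 3` -/
def IsSAW (n : ℕ) (ω : Fin (n + 1) → ℂ) : Prop :=
  ω 0 = ((2 - √3 : ℝ) : ℂ) ∧ (∀ i, ω i ∈ dodecagonV) ∧
    (∀ i : Fin n, ‖ω i.succ - ω i.castSucc‖ = 2 * √3 - 3) ∧ Function.Injective ω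

/-- the number of `n`-step self-avoiding walks -/
noncomputable def a (n : ℕ) : ℕ := {ω | IsSAW n ω}.ncard

/-- the connective constant -/
noncomputable def mu : ℝ := ⨅ n : {n : ℕ // 1 ≤ n}, ((a n.1 : ℝ) ^ ((1 : ℝ) / (n.1 : ℝ)))

/-- `a_n / μ^n` -/
noncomputable def N (n : ℕ) : ℝ := (a n : ℝ) / mu ^ n

/-- `P_n[w{1,…,n} ∩ w'{0,…,n} = ∅]` for two independent uniform `n`-step self-avoiding walks -/
noncomputable def P (n : ℕ) : ℝ :=
  ({p : (Fin (n + 1) → ℂ) × (Fin (n + 1) → ℂ) | IsSAW n p.1 ∧ IsSAW n p.2 ∧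
    ∀ i j, i ≠ 0 → p.1 i ≠ p.2 j}.ncard : ℝ) / (a n : ℝ) ^ 2

/-- the difference of order `r` with step `1`, up to the sign `(-1)^r` -/
noncomputable def diff (r : ℕ) (f : ℕ → ℝ) (n : ℕ) : ℝ :=
  ∑ i ∈ Finset.range (r + 1), (-1 : ℝ) ^ i * (r.choose i : ℝ) * f (n + i)

/-- the rate `log n / √n` -/
noncomputable def rate (n : ℕ) : ℝ := Real.log n / √n

/-- `c` lies strictly between the lower and the upper limit of `log (u n) / log n` -/
def Between (u : ℕ → ℝ) (c : ℝ) : Prop :=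
  ∃ η : ℝ, 0 < η ∧ (∃ᶠ n : ℕ in atTop, Real.log (u n) / Real.log n ≤ c - η) ∧
    ∃ᶠ n : ℕ in atTop, c + η ≤ Real.log (u n) / Real.log n

/-- exact power laws with exponent `c` in windows of length `n ^ (1/2 - ε)`: for every amplitude
`B > 0` and every `0 < ε < 1/2` there are infinitely many `n` with
`|u m / m ^ c - B| ≤ 2 n ^ (-ε / 2)` for all `m` in `[n, n + n ^ (1/2 - ε)]` -/
def PowerLaws (u : ℕ → ℝ) (c : ℝ) : Prop :=
  ∀ B : ℝ, 0 < B → ∀ ε : ℝ, 0 < ε → ε < 1 / 2 → ∃ᶠ n : ℕ in atTop, ∀ m : ℕ,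
    n ≤ m → (m : ℝ) ≤ n + (n : ℝ) ^ (1 / 2 - ε) →
    |u m / (m : ℝ) ^ c - B| ≤ 2 * (n : ℝ) ^ (-(ε / 2))

/-- the domain `√(2+√2) |z² + z³| < 1` -/
def Dom : Set ℂ := {z | √(2 + √2) * ‖z ^ 2 + z ^ 3‖ < 1}

open Pool.Agent.D0H94.T12 in
lemma a_eq (n : ℕ) : a n = aF n := cardF n

open Pool.Agent.D0H94.T12 in
lemma P_eq : P = PP aF := by
  funext n
  unfold P PP
  rw [a_eq]
  congr 2
  exact pairsF n

open Pool.Agent.D0H94.T12 in
lemma mu_eq : mu = mF := by
  unfold mu
  simp only [a_eq]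
  exact mF_eq

open Pool.Agent.D0H94.T13 in
lemma N_eq : N = AA := by
  funext n
  unfold N AA
  rw [a_eq, mu_eq]

open Pool.Agent.D0H94.T13 in
lemma P_eq1 : P = Pool.Agent.R956.V1.P N := by
  rw [P_eq, PP_eq, N_eq]
  rfl

open Pool.Agent.D0H94 in
lemma windows {u : ℕ → ℝ} (H : G3.Hyp u (1 / 2)) {K : ℝ} (hK : 0 ≤ K)
    (h : ∀ n, 2 ≤ n → |u (n + 1) / u n - 1| ≤ K * T13.ρ n) {c : ℝ} (hc : Between u c) :
    PowerLaws u c := by
  obtain ⟨η, hη, h1, h2⟩ := hc
  exact T13.pow_all H.pos hK h (G3.pow_window H hη h1 h2)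

/-- **Theorem.** On the Archimedean lattice (3.12²) let `a_n` be the number of `n`-step self-avoiding
walks from a vertex, `μ` the connective constant, `N_n = a_n / μ^n` and `P_n` the probability that two
independent walks meet only at their start.
(1) For each `r` there is `K` such that for all `n ≥ 2` the differences of order `r`, with step one,
of `N` and of `P` at `n` are at most `K (log n / √n)^r N_n` and `K (log n / √n)^r P_n`.
(2) In particular `a_{n+1} / a_n = μ (1 + O(log n / √n))` and `P_{n+1} / P_n = 1 + O(log n / √n)`.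
(3) The generating function `∑ a_n z^n` extends holomorphically from the disc `|z| < 1/μ` to the open
set `√(2+√2) |z² + z³| < 1`, which contains all points of the circle `|z| = 1/μ` except `1/μ`.
(4) Let `s_k → ∞` with `(s_{k+1} - s_k) / √(s_k) → 0`. If `P_n = n^(-α + o(1))` along `n = s_k`, then along
all `n`, and `N_n = n^(α + o(1))`.
(5) Let `s_k → ∞` with `(s_{k+1} - s_k) log s_k / √(s_k) → 0`. If `P_n n^α → B > 0` along `n = s_k`, then
along all `n`, and `N_n / n^α → 2^α / B`.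
(6) If `c` lies strictly between the lower and the upper limit of `log N_n / log n`, then `N` satisfies
exact power laws with exponent `c` and any amplitude in windows of lengths; the same for `P`. -/
theorem result :
    (∀ r : ℕ, ∃ K : ℝ, ∀ n : ℕ, 2 ≤ n →
      |diff r N n| ≤ K * rate n ^ r * N n ∧ |diff r P n| ≤ K * rate n ^ r * P n) ∧
    (∃ K : ℝ, ∀ n : ℕ, 2 ≤ n → |(a (n + 1) : ℝ) / (mu * a n) - 1| ≤ K * rate n ∧
      |P (n + 1) / P n - 1| ≤ K * rate n) ∧
    (∃ f : ℂ → ℂ, DifferentiableOn ℂ f Dom ∧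
      (∀ z : ℂ, mu * ‖z‖ < 1 → HasSum (fun n => (a n : ℂ) * z ^ n) (f z)) ∧
      IsOpen Dom ∧ ∀ z : ℂ, mu * ‖z‖ ≤ 1 → z ≠ ((1 / mu : ℝ) : ℂ) → z ∈ Dom) ∧
    (∀ s : ℕ → ℕ, Tendsto s atTop atTop →
      Tendsto (fun k => ((s (k + 1) : ℝ) - s k) / √(s k)) atTop (𝓝 0) →
      ∀ α : ℝ, Tendsto (fun k => Real.log (P (s k)) / Real.log (s k)) atTop (𝓝 (-α)) →
      Tendsto (fun n : ℕ => Real.log (P n) / Real.log n) atTop (𝓝 (-α)) ∧
      Tendsto (fun n : ℕ => Real.log (N n) / Real.log n) atTop (𝓝 α)) ∧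
    (∀ s : ℕ → ℕ, Tendsto s atTop atTop →
      Tendsto (fun k => ((s (k + 1) : ℝ) - s k) * (Real.log (s k) / √(s k))) atTop (𝓝 0) →
      ∀ α B : ℝ, 0 < B → Tendsto (fun k => P (s k) * (s k : ℝ) ^ α) atTop (𝓝 B) →
      Tendsto (fun n : ℕ => P n * (n : ℝ) ^ α) atTop (𝓝 B) ∧
      Tendsto (fun n : ℕ => N n / (n : ℝ) ^ α) atTop (𝓝 (2 ^ α / B))) ∧
    ∀ c : ℝ, (Between N c → PowerLaws N c) ∧ (Between P c → PowerLaws P c) := by
  obtain ⟨K, S⟩ := Pool.Agent.D0H94.T13.sqA
  have hN := N_eq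
  have hP := P_eq
  have hP1 := P_eq1
  have hSN : Pool.Agent.R956.V1.Sq N K 1 := by rw [hN]; exact S
  have hNpos : ∀ n, 0 < N n := fun n => by rw [hN]; exact Pool.Agent.D0H94.T13.AA_pos n
  have hRN : Pool.Agent.D0H94.T13.Rg N N := by rw [hN]; exact Pool.Agent.D0H94.T13.rgA
  have hRP : Pool.Agent.D0H94.T13.Rg P P := by rw [hP]; exact Pool.Agent.D0H94.T13.rgP
  have hPpos : ∀ n, 0 < P n := fun n => by
    rw [hP1]; exact Pool.Agent.R956.V1.P_pos hSN n
  obtain ⟨K1, hK1, h1⟩ := Pool.Agent.D0H94.T13.one_step hNpos hRN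
  obtain ⟨K2, hK2, h2⟩ := Pool.Agent.D0H94.T13.one_step hPpos hRP
  have hmu : 0 < mu := by rw [mu_eq]; exact Pool.Agent.D0H94.T12.mF_pos
  have ha : ∀ n, (0 : ℝ) < a n := by
    intro n
    have h3 := hNpos n
    unfold N at h3
    have h4 := mul_pos h3 (pow_pos hmu n)
    rwa [div_mul_cancel₀ _ (pow_pos hmu n).ne'] at h4
  refine ⟨?_, ⟨max K1 K2, fun n hn => ?_⟩, ?_, ?_, ?_, ?_⟩
  · intro r
    obtain ⟨L1, hL1, g1⟩ := hRN r
    obtain ⟨L2, hL2, g2⟩ := hRP r
    refine ⟨max L1 L2, fun n hn => ⟨?_, ?_⟩⟩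
    · refine (g1 n hn).trans ?_
      have h3 : 0 ≤ Pool.Agent.D0H94.T13.ρ n ^ r := pow_nonneg (Pool.Agent.D0H94.T13.rho_nonneg n) r
      exact mul_le_mul_of_nonneg_right (mul_le_mul_of_nonneg_right (le_max_left _ _) h3)
        (hNpos n).le
    · refine (g2 n hn).trans ?_
      have h3 : 0 ≤ Pool.Agent.D0H94.T13.ρ n ^ r := pow_nonneg (Pool.Agent.D0H94.T13.rho_nonneg n) r
      exact mul_le_mul_of_nonneg_right (mul_le_mul_of_nonneg_right (le_max_right _ _) h3)
        (hPpos n).le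
  · have h3 : 0 ≤ rate n := Pool.Agent.D0H94.T13.rho_nonneg n
    constructor
    · have e : (a (n + 1) : ℝ) / (mu * a n) = N (n + 1) / N n := by
        unfold N
        have := (ha n).ne'
        have := (pow_pos hmu n).ne'
        have := hmu.ne'
        rw [pow_succ]
        field_simp
      rw [e]
      exact (h1 n hn).trans (mul_le_mul_of_nonneg_right (le_max_left _ _) h3)
    · exact (h2 n hn).trans (mul_le_mul_of_nonneg_right (le_max_right _ _) h3)
  · obtain ⟨f, hf, hs⟩ := Pool.Agent.D0H94.T13.gf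
    refine ⟨f, hf, fun z hz => ?_, isOpen_lt (by fun_prop) continuous_const, fun z hz hne => ?_⟩
    · rw [mu_eq] at hz
      simpa only [a_eq] using hs z hz
    · rw [mu_eq] at hz hne
      exact Pool.Agent.D0H94.T13.dom z hz hne
  · intro s hs hgap α hc
    have h3 : Tendsto (fun n : ℕ => Real.log (P n) / Real.log n) atTop (𝓝 (-α)) := by
      rw [hP1] at hc ⊢
      exact Pool.Agent.R956.V1.expo hSN hs hgap hc
    refine ⟨h3, ?_⟩
    rw [hP] at h3
    have h4 := (Pool.Agent.D0H94.T12.expoF α).1 h3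
    rw [hN]
    exact h4
  · intro s hs hgap α B hB hc
    rw [hP1] at hc ⊢
    have h3 := fun ε hε => Pool.Agent.R956.V1.amp (ε := ε) hSN hs hgap hB hc hε
    simp only [one_pow] at h3
    exact ⟨Pool.Agent.R956.V1.tendsto_of_ratio hB fun ε hε => (h3 ε hε).mono fun n hn => hn.1,
      Pool.Agent.R956.V1.tendsto_of_ratio (by positivity) fun ε hε =>
        (h3 ε hε).mono fun n hn => hn.2⟩
  · have hsub : ∀ n, N (2 * n) ≤ N n ^ 2 := by
      intro n
      unfold N
      rw [div_pow, ← pow_mul, mul_comm n 2]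
      refine div_le_div_of_nonneg_right ?_ (pow_pos hmu _).le
      have h3 := Pool.Agent.D0H94.T12.submulF n n
      rw [a_eq, a_eq, sq, two_mul]
      exact_mod_cast h3
    have H := Pool.Agent.D0H94.G3.hyp2 hSN hsub
    have HP : Pool.Agent.D0H94.G3.Hyp P (1 / 2) := by
      rw [hP1]
      exact H.toHyp.dbl
    exact fun c => ⟨fun hc => windows H.toHyp hK1 h1 hc, fun hc => windows HP hK2 h2 hc⟩

end Pool.Agent.Results.MP_8c6f77_pr.ArchimedeanRegularity
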